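import Pool.Agent.Lib.TAO.VB
import Pool.Agent.Lib.ALL.Defs

/-!
# PROJECT ALL, block Z, T0-tors: values in extensions of degree `m`
-/

set_option autoImplicit false

namespace Pool.Agent.ALL_h63

open Pool.Agent.H15JM (RVal)
open Pool.Agent.TAO (OVal)

universe u w

section

variable {𝕂 : Type w} [Field 𝕂] [LinearOrder 𝕂] [IsStrictOrderedRing 𝕂] {F L : Type*} [Field F]
  [Field L] [Algebra F L] [FiniteDimensional F L]

/-- In an extension of degree `m` the value of every element has a multiple `e ≤ m` in the group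
of the values of the base field. -/
theorem exists_mul_mem (W : OVal 𝕂 L) (Γ : AddSubgroup 𝕂)
    (hΓ : ∀ f : F, f ≠ 0 → W (algebraMap F L f) ∈ Γ) {a : L} (ha : a ≠ 0) :
    ∃ e : ℕ, 0 < e ∧ e ≤ Module.finrank F L ∧ (e : 𝕂) * W a ∈ Γ := by
  classical
  set m := Module.finrank F L with hm
  -- `1, a, .., a^m` are linearly dependent
  have h1 : ¬ LinearIndependent F (fun i : Fin (m + 1) => a ^ (i : ℕ)) := by
    intro h
    have := h.fintype_card_le_finrank
    rw [Fintype.card_fin] at this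
    omega
  rw [Fintype.not_linearIndependent_iff] at h1
  obtain ⟨c, hc, i₀, hi₀⟩ := h1
  set s : Finset (Fin (m + 1)) := Finset.univ.filter fun i => c i ≠ 0 with hs
  have hi₀s : i₀ ∈ s := Finset.mem_filter.2 ⟨Finset.mem_univ _, hi₀⟩
  have hne : ∀ i ∈ s, algebraMap F L (c i) * a ^ (i : ℕ) ≠ 0 := fun i hi =>
    mul_ne_zero ((map_ne_zero _).2 (Finset.mem_filter.1 hi).2) (pow_ne_zero _ ha)
  have hsum : ∑ i ∈ s, algebraMap F L (c i) * a ^ (i : ℕ) = 0 := by
    rw [← hc, hs, Finset.sum_filter]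
    refine Finset.sum_congr rfl fun i _ => ?_
    split_ifs with h
    · rw [Algebra.smul_def]
    · rw [not_not.1 h, zero_smul]
  -- two terms have the same value
  have h2 : ∃ i ∈ s, ∃ j ∈ s, i ≠ j ∧ W (algebraMap F L (c i) * a ^ (i : ℕ)) =
      W (algebraMap F L (c j) * a ^ (j : ℕ)) := by
    by_contra hcon
    push Not at hcon
    exact (TAO.sum_distinct (v := W) s ⟨i₀, hi₀s⟩ _ hne
      (fun i hi j hj h => by
        by_contra hij
        exact hcon i hi j hj hij h)).1 hsum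
  obtain ⟨i, hi, j, hj, hij, hv⟩ := h2
  wlog hlt : (i : ℕ) < (j : ℕ) generalizing i j
  · refine this j hj i hi hij.symm hv.symm ?_
    have h3 : (i : ℕ) ≠ (j : ℕ) := fun h => hij (Fin.ext h)
    omega
  have hci := (Finset.mem_filter.1 hi).2
  have hcj := (Finset.mem_filter.1 hj).2
  rw [W.map_mul ((map_ne_zero _).2 hci) (pow_ne_zero _ ha),
    W.map_mul ((map_ne_zero _).2 hcj) (pow_ne_zero _ ha), W.map_pow ha, W.map_pow ha] at hv
  refine ⟨(j : ℕ) - (i : ℕ), by omega, by have := j.2; omega, ?_⟩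
  have h4 : (((j : ℕ) - (i : ℕ) : ℕ) : 𝕂) * W a =
      W (algebraMap F L (c i)) - W (algebraMap F L (c j)) := by
    rw [Nat.cast_sub hlt.le]
    linear_combination -hv
  rw [h4]
  exact Γ.sub_mem (hΓ _ hci) (hΓ _ hcj)

/-- Uniform version. -/
theorem exists_mul_mem_uniform (W : OVal 𝕂 L) (Γ : AddSubgroup 𝕂)
    (hΓ : ∀ f : F, f ≠ 0 → W (algebraMap F L f) ∈ Γ) :
    ∃ e : ℕ, 0 < e ∧ ∀ a : L, a ≠ 0 → (e : 𝕂) * W a ∈ Γ := by
  refine ⟨(Module.finrank F L).factorial, Nat.factorial_pos _, fun a ha => ?_⟩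
  obtain ⟨e, he, hle, h⟩ := exists_mul_mem W Γ hΓ ha
  obtain ⟨c, hc⟩ := Nat.dvd_factorial he hle
  rw [hc, Nat.cast_mul, mul_comm (e : 𝕂), mul_assoc, ← nsmul_eq_mul]
  exact Γ.nsmul_mem h c

/-- Real valuations. -/
theorem exists_mul_mem_real (W : RVal L) (Γ : AddSubgroup ℝ)
    (hΓ : ∀ f : F, f ≠ 0 → W (algebraMap F L f) ∈ Γ) {a : L} (ha : a ≠ 0) :
    ∃ e : ℕ, 0 < e ∧ e ≤ Module.finrank F L ∧ (e : ℝ) * W a ∈ Γ :=
  exists_mul_mem (TAO.ofR W) Γ hΓ ha

theorem exists_mul_mem_real_uniform (W : RVal L) (Γ : AddSubgroup ℝ)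
    (hΓ : ∀ f : F, f ≠ 0 → W (algebraMap F L f) ∈ Γ) :
    ∃ e : ℕ, 0 < e ∧ ∀ a : L, a ≠ 0 → (e : ℝ) * W a ∈ Γ :=
  exists_mul_mem_uniform (TAO.ofR W) Γ hΓ

end

section Frame

open Pool.Agent.ALL (FR)
open Pool.Agent.LU1 (FracIs)

variable {k Ω : Type u} [Field k] [Field Ω] [Algebra k Ω] {v : RVal Ω} {D : ℕ} {B : FR k v D}
  {F : IntermediateField k Ω} {w : RVal Ω}

/-- the values of the elements of the field of fractions -/
theorem val_mem_of_frac (hF : FracIs B.R F) (hval : ∀ f ∈ B.R, f ≠ 0 → w f ∈ B.Γ) {f : Ω}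
    (hf : f ∈ F) (h0 : f ≠ 0) : w f ∈ B.Γ := by
  obtain ⟨a, ha, b, hb, hb0, rfl⟩ := hF.2 f hf
  have ha0 : a ≠ 0 := fun h => h0 (by rw [h, zero_div])
  rw [w.map_div ha0 hb0]
  exact B.Γ.sub_mem (hval a ha ha0) (hval b hb hb0)

/-- T0-tors, with a valuation of the extension. -/
theorem frame_tors (hF : FracIs B.R F) (hval : ∀ f ∈ B.R, f ≠ 0 → w f ∈ B.Γ)
    (L : IntermediateField F Ω) [FiniteDimensional F L] (W : RVal L)
    (hW : ∀ f : F, f ≠ 0 → W (algebraMap F L f) = w (f : Ω)) {a : L} (ha : a ≠ 0) :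
    ∃ e : ℕ, 0 < e ∧ e ≤ Module.finrank F L ∧ (e : ℝ) * W a ∈ B.Γ :=
  exists_mul_mem_real W B.Γ (fun f hf => by
    rw [hW f hf]
    exact val_mem_of_frac hF hval f.2 (by simpa using hf)) ha

/-- Uniform version. -/
theorem frame_tors_uniform (hF : FracIs B.R F) (hval : ∀ f ∈ B.R, f ≠ 0 → w f ∈ B.Γ)
    (L : IntermediateField F Ω) [FiniteDimensional F L] (W : RVal L)
    (hW : ∀ f : F, f ≠ 0 → W (algebraMap F L f) = w (f : Ω)) :
    ∃ e : ℕ, 0 < e ∧ ∀ a : L, a ≠ 0 → (e : ℝ) * W a ∈ B.Γ :=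
  exists_mul_mem_real_uniform W B.Γ fun f hf => by
    rw [hW f hf]
    exact val_mem_of_frac hF hval f.2 (by simpa using hf)

/-- The restriction of a valuation to an intermediate field. -/
def restr (L : IntermediateField F Ω) (W : RVal Ω) : RVal L where
  toFun a := W (a : Ω)
  map_mul' a b ha hb := by
    rw [show ((a * b : L) : Ω) = (a : Ω) * (b : Ω) from rfl]
    exact W.map_mul (by simpa using ha) (by simpa using hb)
  map_add' a b ha hb hab := by
    rw [show ((a + b : L) : Ω) = (a : Ω) + (b : Ω) from rfl]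
    exact W.map_add (by simpa using ha) (by simpa using hb) fun h => hab (Subtype.ext h)

/-- T0-tors, with a valuation of `Ω`. -/
theorem frame_tors' (hF : FracIs B.R F) (hval : ∀ f ∈ B.R, f ≠ 0 → w f ∈ B.Γ)
    (L : IntermediateField F Ω) [FiniteDimensional F L] (W : RVal Ω)
    (hW : ∀ f ∈ F, f ≠ 0 → W f = w f) {a : Ω} (ha : a ∈ L) (ha0 : a ≠ 0) :
    ∃ e : ℕ, 0 < e ∧ e ≤ Module.finrank F L ∧ (e : ℝ) * W a ∈ B.Γ :=
  frame_tors hF hval L (restr L W) (fun f hf => hW f f.2 (by simpa using hf))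
    (a := (⟨a, ha⟩ : L)) (fun h => ha0 (congrArg Subtype.val h))

end Frame

end Pool.Agent.ALL_h63
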